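import Mathlib
import Pool.Agent.W5h30.FX.Main

/-!
# The digits of the elements of a fixed real number field

Let `V = ℚ + ℚ ω_1 + … + ℚ ω_r` be a space of real algebraic numbers of dimension `r + 1`, for instance
a real number field of degree `r + 1`, or, for `r = 1`, the set of all rational affine images of one
irrational algebraic number. Let `x` be a random element of `V` in `[0, 1)` of height at most `H`. For
every base `b`, at every place `s ≤ A log H`, with `A` as large as we please, the word of the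
`(r + 2 - ε) log_b H` digits of `x` after the place `s` is uniformly distributed, up to `H ^ (-c)` in
total variation. The length is optimal: there are about `H ^ (r + 2)` such elements.

Proof. The Fourier coefficients of the law at `k` are averages of exponential sums over the denominators
dividing `k b ^ s`; their mean square is bounded by a large sieve inequality for the points
`u (h_1 ω_1 + … + h_r ω_r)`, `u ∣ b ^ s`, which are well spaced modulo one by the subspace theorem.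
-/

set_option autoImplicit false

namespace Pool.Agent.Results.MP_f2f914_nt.FixedNumberField

open Finset

/-- The elements in `[0, 1)` of height at most `H` of the space `ℚ + ℚ ω_1 + ... + ℚ ω_r`: the
`x = (a + h_1 ω_1 + ... + h_r ω_r) / q` in `[0, 1)` with integers `a`, `h_j`, `q`, where `1 ≤ q ≤ H` and
`|h_j| ≤ H`. -/
def Elements {r : ℕ} (ω : Fin r → ℝ) (H : ℕ) : Set ℝ :=
  {x | x ∈ Set.Ico (0 : ℝ) 1 ∧ ∃ (q : ℕ) (a : ℤ) (h : Fin r → ℤ), 1 ≤ q ∧ q ≤ H ∧ (∀ j, |h j| ≤ H) ∧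
    (q : ℝ) * x = a + ∑ j, (h j : ℝ) * ω j}

/-- The integer part of `K {b ^ s y}`; for `K = b ^ N` this is the word of the digits in base `b` of `y`
at the places `s + 1, ..., s + N` after the point. -/
noncomputable def word (b s K : ℕ) (y : ℝ) : ℕ := ⌊(K : ℝ) * Int.fract ((b : ℝ) ^ s * y)⌋₊

/-- **Main theorem.** -/
theorem result {r : ℕ} (ω : Fin r → ℝ) (halg : ∀ j, IsAlgebraic ℚ (ω j))
    (hind : ∀ (c : Fin r → ℚ) (c0 : ℚ), ∑ j, (c j : ℝ) * ω j + c0 = 0 → c = 0) (B : ℕ) (A ε : ℝ)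
    (hε : 0 < ε) :
    ∃ c : ℝ, 0 < c ∧ ∃ H0 : ℕ, ∀ H : ℕ, H0 ≤ H → (Elements ω H).Finite ∧ (Elements ω H).Nonempty ∧
      ∀ b s K : ℕ, 2 ≤ b → b ≤ B → 1 ≤ K → ∀ y : ℝ,
      ((s : ℝ) ≤ A * Real.log H → (K : ℝ) ≤ (H : ℝ) ^ ((r : ℝ) + 2 - ε) → ∀ E : Set ℕ, E ⊆ Set.Iio K →
        |({x | x ∈ Elements ω H ∧ word b s K (x + y) ∈ E}.ncard : ℝ) / (Elements ω H).ncard -
          (E.ncard : ℝ) / K| ≤ (H : ℝ) ^ (-c)) ∧
      ((H : ℝ) ^ ((r : ℝ) + 2 + ε) ≤ K → ∃ E : Set ℕ, E ⊆ Set.Iio K ∧ (E.ncard : ℝ) / K ≤ (H : ℝ) ^ (-c) ∧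
        ∀ x ∈ Elements ω H, word b s K (x + y) ∈ E) := by
  classical
  obtain ⟨ε', hε'⟩ : ∃ ε' : ℝ, ε' = min ε 1 := ⟨_, rfl⟩
  have hε'0 : 0 < ε' := by rw [hε']; exact lt_min hε one_pos
  have hε'1 : ε' ≤ 1 := by rw [hε']; exact min_le_right _ _
  have hε'e : ε' ≤ ε := by rw [hε']; exact min_le_left _ _
  obtain ⟨c1, hc1, H1, hlaw⟩ := Pool.Agent.W5h30.FX.els_law ω halg hind (max B 2) (le_max_right _ _) A ε' hε'0 hε'1
  have hEls : ∀ H, Elements ω H = Pool.Agent.W5h30.FX.Els ω H := fun _ => rfl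
  refine ⟨min c1 (ε / 2), lt_min hc1 (by positivity), ?_⟩
  have hev : ∀ᶠ H : ℕ in Filter.atTop, (3 : ℝ) ^ r ≤ (H : ℝ) ^ (ε / 2) ∧ H1 ≤ H ∧ 32 * 3 ^ r ≤ H ∧ 1 ≤ H := by
    filter_upwards [Pool.Agent.W5h30.MU.ev_rpow' ((3 : ℝ) ^ r) (ε / 2) (by positivity),
      Filter.eventually_ge_atTop H1, Filter.eventually_ge_atTop (32 * 3 ^ r), Filter.eventually_ge_atTop 1]
      with H a b c d
    exact ⟨a, b, c, d⟩
  obtain ⟨H0, hH0⟩ := Filter.eventually_atTop.1 hev
  refine ⟨H0, fun H hH => ?_⟩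
  obtain ⟨g1, g2, g3, g4⟩ := hH0 H hH
  have hHR : (1 : ℝ) ≤ H := by exact_mod_cast g4
  have hHpos : (0 : ℝ) < H := by linarith
  rw [hEls]
  refine ⟨Pool.Agent.W5h30.FX.els_fin ω H, ?_, fun b s K hb hbB hK y => ⟨fun hs hKle E hE => ?_, fun hKge => ?_⟩⟩
  · have h1 := Pool.Agent.W5h30.FX.els_ge ω hind H g3
    have h2 : (0 : ℝ) < (H : ℝ) ^ (r + 2) / (32 * 3 ^ r) := by positivity
    have h3 : ((Pool.Agent.W5h30.FX.Els ω H).ncard : ℝ) ≠ 0 := (lt_of_lt_of_le h2 h1).ne'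
    exact Set.nonempty_of_ncard_ne_zero (by exact_mod_cast h3)
  · obtain ⟨Ef, hEf⟩ : ∃ Ef : Finset ℕ, Ef = (range K).filter (fun w => w ∈ E) := ⟨_, rfl⟩
    have hEf' : ∀ w, w ∈ Ef ↔ w ∈ E := by
      intro w
      rw [hEf, mem_filter, mem_range]
      exact ⟨fun h => h.2, fun h => ⟨hE h, h⟩⟩
    have hEcoe : E = (Ef : Set ℕ) := by
      ext w
      rw [mem_coe, hEf']
    have h1 := hlaw H g2 b s K hb (hbB.trans (le_max_left _ _)) hs hK
      (hKle.trans (Real.rpow_le_rpow_of_exponent_le hHR (by linarith))) y Ef (fun w hw => hE ((hEf' w).1 hw))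
    have h2 : {x | x ∈ Pool.Agent.W5h30.FX.Els ω H ∧ word b s K (x + y) ∈ E} =
        {x | x ∈ Pool.Agent.W5h30.FX.Els ω H ∧
          Pool.Agent.W5h30.SM.cell K (((b ^ s : ℕ) : ℝ) * (x + y)) ∈ Ef} := by
      ext x
      simp only [Set.mem_setOf_eq, hEf']
      unfold word Pool.Agent.W5h30.SM.cell
      push_cast
      rfl
    rw [h2, hEcoe, Set.ncard_coe_finset]
    exact h1.trans (Real.rpow_le_rpow_of_exponent_le hHR (by linarith [min_le_left c1 (ε / 2)]))
  · have hKR : (1 : ℝ) ≤ K := by exact_mod_cast hK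
    have hK0 : (0 : ℝ) < K := by linarith
    refine ⟨(fun x : ℝ => word b s K (x + y)) '' Pool.Agent.W5h30.FX.Els ω H, ?_, ?_, ?_⟩
    · rintro _ ⟨x, _, rfl⟩
      exact Pool.Agent.W5h30.SM.cell_lt hK _
    · rw [div_le_iff₀ hK0]
      have h1 : ((fun x : ℝ => word b s K (x + y)) '' Pool.Agent.W5h30.FX.Els ω H).ncard ≤
          (Pool.Agent.W5h30.FX.Els ω H).ncard := Set.ncard_image_le (Pool.Agent.W5h30.FX.els_fin ω H)
      have h2 := Pool.Agent.W5h30.FX.els_le ω H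
      calc (((fun x : ℝ => word b s K (x + y)) '' Pool.Agent.W5h30.FX.Els ω H).ncard : ℝ)
          ≤ 3 ^ r * (H : ℝ) ^ (r + 2) := le_trans (by exact_mod_cast h1) h2
        _ ≤ (H : ℝ) ^ (ε / 2) * (H : ℝ) ^ ((r : ℝ) + 2) := by
            have h3 : (H : ℝ) ^ (r + 2) = (H : ℝ) ^ ((r : ℝ) + 2) := by
              rw [← Real.rpow_natCast]
              push_cast
              rfl
            rw [h3]
            gcongr
        _ = (H : ℝ) ^ (-(ε / 2)) * (H : ℝ) ^ ((r : ℝ) + 2 + ε) := by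
            rw [← Real.rpow_add hHpos, ← Real.rpow_add hHpos]
            congr 1
            ring
        _ ≤ (H : ℝ) ^ (-(min c1 (ε / 2))) * K := by
            have h4 : (H : ℝ) ^ (-(ε / 2)) ≤ (H : ℝ) ^ (-(min c1 (ε / 2))) :=
              Real.rpow_le_rpow_of_exponent_le hHR (by linarith [min_le_right c1 (ε / 2)])
            gcongr
    · intro x hx
      exact ⟨x, hx, rfl⟩

end Pool.Agent.Results.MP_f2f914_nt.FixedNumberField
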