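import Mathlib
import Pool.Agent.W5h30.RM.Sqrt
import Pool.Agent.W5h30.RM.Conv

/-!
# The discrepancy of the rational multiples of a real number

Let `x ≠ 0` be a real number, for instance an algebraic irrational number. Its rational multiples
`r x`, `r ≠ 0`, are normal in a base `b` if and only if `x` is. For every `δ > 0` and `A` there is `C` such
that among the multiples `r x` with the fractions `r` between `0` and `1` whose denominator is a prime
number `≤ P`, where `P ≥ N ^ C`, all but a proportion `N ^ (-A)` are normal up to the `N`-th digit, with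
the discrepancy `N ^ (-1/2 + δ)` of a random number, simultaneously in all bases `b ≤ N ^ A`. So the
height of the multiples is a power of `N` only.

Proof. The moments of high even order of the exponential sums over `b ^ i r x` are expanded. For an
integer `T ≠ 0` the average over `r` of `exp(2πi r T x)` is small, because the integer nearest to `T x`
(shifted by a small integer) has few prime divisors; and the number of solutions of
`b ^ i_1 + … + b ^ i_s = b ^ j_1 + … + b ^ j_s` is `O(N ^ s)` (starting files).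
-/

set_option autoImplicit false

namespace Pool.Agent.Results.MP_f2f914_nt.RationalMultiples

open Finset

/-- the rational numbers between `0` and `1` whose denominator is a prime number `≤ P` -/
def Fractions (P : ℕ) : Set ℚ := {r | 0 < r ∧ r < 1 ∧ r.den.Prime ∧ r.den ≤ P}

/-- for every `n ≤ N` the number of `i` with `1 ≤ i ≤ n` such that the fractional part of `z b^i` lies
in `[α, β)` differs from `(β - α) n` by at most `E`, for all intervals `[α, β) ⊆ [0, 1)` -/
def DiscrepancyUpTo (b N : ℕ) (E z : ℝ) : Prop :=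
  ∀ n : ℕ, n ≤ N → ∀ α β : ℝ, 0 ≤ α → α < β → β ≤ 1 →
    |(({i : ℕ | 1 ≤ i ∧ i ≤ n ∧ α ≤ Int.fract (z * (b : ℝ) ^ i) ∧
      Int.fract (z * (b : ℝ) ^ i) < β}.ncard : ℕ) : ℝ) - (β - α) * n| ≤ E

/-- Let `A` be a natural number and `δ > 0`. There are `C` and `N₀` such that for all `N ≥ N₀`, all
`P ≥ N ^ C` and all real `x` with `1 / N ≤ |x| ≤ N`, for all but a proportion `N ^ (-A)` of the
fractions `r` the first `n` terms of `(r x b ^ i)_{i ≥ 1}` have discrepancy at most `N ^ (1/2 + δ)` (not
normalised), for all `n ≤ N` and all bases `2 ≤ b ≤ N ^ A`. -/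
theorem result (A : ℕ) (δ : ℝ) (hδ : 0 < δ) : ∃ C N₀ : ℕ, ∀ N : ℕ, N₀ ≤ N → ∀ P : ℕ, N ^ C ≤ P →
    (Fractions P).Finite ∧ (Fractions P).Nonempty ∧
    ∀ x : ℝ, 1 / (N : ℝ) ≤ |x| → |x| ≤ N →
      (({r ∈ Fractions P | ¬ ∀ b : ℕ, 2 ≤ b → b ≤ N ^ A →
        DiscrepancyUpTo b N ((N : ℝ) ^ (1 / 2 + δ)) (r * x)}.ncard : ℕ) : ℝ) * (N : ℝ) ^ A ≤
          ((Fractions P).ncard : ℝ) := by
  classical
  have hcoe : ∀ P : ℕ, Fractions P = (Pool.Agent.W5h30.RM.FS P : Set ℚ) := fun P =>
    Pool.Agent.W5h30.RM.coe_FS P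
  obtain ⟨C, N0, h⟩ := Pool.Agent.W5h30.RM.sqrt_main A δ hδ
  obtain ⟨P1, hP1⟩ := Filter.eventually_atTop.1 (Pool.Agent.W5h30.RM.ev_card 1 one_pos)
  refine ⟨C + 1, max (max N0 P1) 1, fun N hN P hP => ?_⟩
  have hNa : N0 ≤ N := (le_max_left _ _).trans ((le_max_left _ _).trans hN)
  have hNb : P1 ≤ N := (le_max_right _ _).trans ((le_max_left _ _).trans hN)
  have hNc : 1 ≤ N := (le_max_right _ _).trans hN
  have hNP : N ≤ P := (Nat.le_self_pow (by omega) N).trans hP
  have hCP : N ^ C ≤ P := (Nat.pow_le_pow_right hNc (by omega)).trans hP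
  have hne : (Pool.Agent.W5h30.RM.FS P).Nonempty := by
    rw [← card_pos]
    have h1 := hP1 P (hNb.trans hNP)
    have h2 : (0 : ℝ) < (P : ℝ) ^ (2 - (1 : ℝ)) := by
      have : (0 : ℝ) < P := by exact_mod_cast (by omega : 0 < P)
      positivity
    exact_mod_cast h2.trans_le h1
  refine ⟨by rw [hcoe]; exact finite_toSet _, by rw [hcoe]; exact_mod_cast hne,
    fun x hx1 hx2 => ?_⟩
  have h1 := h N hNa P hCP x hx1 hx2
  rw [hcoe, Set.ncard_coe_finset]
  refine le_trans (le_of_eq ?_) h1
  rw [← Set.ncard_coe_finset]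
  congr 3
  ext r
  simp only [Set.mem_ofPred_eq, mem_coe, mem_filter]
  refine and_congr_right fun _ => not_congr (forall_congr' fun b => forall_congr' fun _ =>
    forall_congr' fun _ => ?_)
  exact Pool.Agent.W5h30.RM.DU_iff b N _ _

end Pool.Agent.Results.MP_f2f914_nt.RationalMultiples
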