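import Mathlib
import Pool.Agent.W5h30.MW.Law
import Pool.Agent.W5h30.MW.Pair
import Pool.Agent.W5h30.MU.Rel

/-!
# The joint law of several windows of digits, in several bases, of a random algebraic number

Let `x` be a random real algebraic number of degree `d` and height at most `H` in an interval `[a, b]`,
and let `f` be twice continuously differentiable with `f' ≠ 0` on `[a, b]` (for instance `f x = x`).
Consider `n` words `⌊K_i {m_i f(x)}⌋` (for `m_i = b_i ^ s_i` and `K_i = b_i ^ N_i` these are the words of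
the `N_i` digits in base `b_i` of `f x` after the `s_i`-th place), with `m_i K_i ≤ H ^ (d + 1 - ε)`.
If there is no small linear relation between the scales `m_i`, with coefficients at most `H ^ ε K_i`,
the `n` words are jointly uniformly distributed in total variation; if there is one, with coefficients
at most `H ^ (-ε) K_i`, their law is singular. Two windows in any two bases (equal or not) have such a
relation if and only if both words are longer than the place, after removal of the greatest common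
divisor of the two scales, where the window of the other one begins.
-/

set_option autoImplicit false

namespace Pool.Agent.Results.MP_f2f914_nt.SeveralBases

open Polynomial Finset

/-- The real algebraic numbers of degree `d` and height at most `H` in `[a, b]` (real roots in `[a, b]`
of irreducible integer polynomials of degree `d` with coefficients at most `H` in absolute value). -/
def AlgIn (d H : ℕ) (a b : ℝ) : Set ℝ :=
  {x | (∃ P : ℤ[X], Irreducible P ∧ P.natDegree = d ∧ (∀ i, |P.coeff i| ≤ H) ∧ aeval x P = 0) ∧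
    x ∈ Set.Icc a b}

/-- The integer part of `K {m y}`; for `m = b ^ s` and `K = b ^ N` this is the word of the digits in
base `b` of `y` at the places `s + 1, ..., s + N` after the point. -/
noncomputable def word (m K : ℕ) (y : ℝ) : ℕ := ⌊(K : ℝ) * Int.fract ((m : ℝ) * y)⌋₊

/-- The words in the `n` windows. -/
noncomputable def words {n : ℕ} (m K : Fin n → ℕ) (y : ℝ) : Fin n → ℕ := fun i => word (m i) (K i) y

/-- The proportion of the elements of `A` whose value under `W` lies in `E` is the proportion of `E` in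
the set of all `w` with `w i < K i`, up to `δ`, for every subset `E` of this set. -/
def Uniform {n : ℕ} (A : Set ℝ) (W : ℝ → Fin n → ℕ) (K : Fin n → ℕ) (δ : ℝ) : Prop :=
  ∀ E : Set (Fin n → ℕ), E ⊆ {w | ∀ i, w i < K i} →
    |({x | x ∈ A ∧ W x ∈ E}.ncard : ℝ) / A.ncard - (E.ncard : ℝ) / ∏ i, (K i : ℝ)| ≤ δ

/-- A proportion at most `δ` of the `w` with `w i < K i` contains all values of `W` on `A`. -/
def Singular {n : ℕ} (A : Set ℝ) (W : ℝ → Fin n → ℕ) (K : Fin n → ℕ) (δ : ℝ) : Prop :=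
  ∃ E : Set (Fin n → ℕ), E ⊆ {w | ∀ i, w i < K i} ∧ (E.ncard : ℝ) / ∏ i, (K i : ℝ) ≤ δ ∧
    ∀ x ∈ A, W x ∈ E

/-- A small relation between the scales of the windows. -/
def Relation {n : ℕ} (m K : Fin n → ℕ) (X : ℝ) : Prop :=
  ∃ k : Fin n → ℤ, k ≠ 0 ∧ (∀ i, |(k i : ℝ)| ≤ X * K i) ∧ |∑ i, (k i : ℝ) * m i| ≤ X

/-- The windows begin after the scale `X` and are separated by a factor `X`. -/
def Separated {n : ℕ} (m K : Fin n → ℕ) (X : ℝ) : Prop :=
  (∀ i, X ≤ m i) ∧ ∀ i i', i ≠ i' → (m i : ℝ) * K i * X ≤ m i' ∨ (m i' : ℝ) * K i' * X ≤ m i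

/-- The scales of the windows beginning at the places `s i` in the bases `b i`. -/
def scale (b s : Fin 2 → ℕ) : Fin 2 → ℕ := fun i => b i ^ s i

/-- **Main theorem.** -/
theorem result (d : ℕ) (hd : 2 ≤ d) (n B : ℕ) (ε : ℝ) (hε : 0 < ε) (a b : ℝ) (hab : a < b) (f : ℝ → ℝ)
    (U : Set ℝ) (hU : IsOpen U) (hUab : Set.Icc a b ⊆ U) (hf : ContDiffOn ℝ 2 f U)
    (hf0 : ∀ t ∈ Set.Icc a b, deriv f t ≠ 0) :
    ∃ c : ℝ, 0 < c ∧ ∃ H0 : ℕ, ∀ H : ℕ, H0 ≤ H → (AlgIn d H a b).Finite ∧ (AlgIn d H a b).Nonempty ∧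
      (∀ m K : Fin n → ℕ,
        (∀ i, 1 ≤ m i ∧ 1 ≤ K i ∧ (m i : ℝ) * K i ≤ (H : ℝ) ^ ((d : ℝ) + 1 - ε)) →
        (¬ Relation m K ((H : ℝ) ^ ε) ∨ Separated m K ((H : ℝ) ^ ε)) →
        Uniform (AlgIn d H a b) (fun x => words m K (f x)) K ((H : ℝ) ^ (-c))) ∧
      (∀ m K : Fin n → ℕ, (∀ i, 1 ≤ m i ∧ 1 ≤ K i) →
        (Relation m K ((H : ℝ) ^ (-ε)) ∨ (H : ℝ) ^ ((d : ℝ) + 1 + ε) ≤ ∏ i, (K i : ℝ)) →
        Singular (AlgIn d H a b) (fun x => words m K (f x)) K ((H : ℝ) ^ (-c))) ∧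
      (∀ β s K : Fin 2 → ℕ, (∀ i, 2 ≤ β i ∧ β i ≤ B ∧ 1 ≤ K i) →
        ((∀ i, (H : ℝ) ^ ε ≤ scale β s i ∧ (scale β s i : ℝ) * K i ≤ (H : ℝ) ^ ((d : ℝ) + 1 - ε)) →
          ((K 0 : ℝ) * (Nat.gcd (scale β s 0) (scale β s 1) : ℕ) * (H : ℝ) ^ ε ≤ scale β s 1 ∨
            (K 1 : ℝ) * (Nat.gcd (scale β s 0) (scale β s 1) : ℕ) * (H : ℝ) ^ ε ≤ scale β s 0) →
          Uniform (AlgIn d H a b) (fun x => words (scale β s) K (f x)) K ((H : ℝ) ^ (-c))) ∧
        ((scale β s 1 : ℝ) * (H : ℝ) ^ ε ≤ K 0 * (Nat.gcd (scale β s 0) (scale β s 1) : ℕ) ∧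
            (scale β s 0 : ℝ) * (H : ℝ) ^ ε ≤ K 1 * (Nat.gcd (scale β s 0) (scale β s 1) : ℕ) →
          Singular (AlgIn d H a b) (fun x => words (scale β s) K (f x)) K ((H : ℝ) ^ (-c)))) := by
  classical
  obtain ⟨q, rfl⟩ : ∃ q, d = q + 2 := ⟨d - 2, by omega⟩
  obtain ⟨ε1, hε1⟩ : ∃ ε1 : ℝ, ε1 = min ε 1 := ⟨_, rfl⟩
  have hε10 : 0 < ε1 := by rw [hε1]; exact lt_min hε one_pos
  have hε11 : ε1 ≤ 1 := by rw [hε1]; exact min_le_right _ _
  have hε1e : ε1 ≤ ε := by rw [hε1]; exact min_le_left _ _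
  obtain ⟨η, hη⟩ : ∃ η : ℝ, η = ε1 / 4 := ⟨_, rfl⟩
  have hη0 : 0 < η := by rw [hη]; positivity
  -- regularity
  have hcd1 : ContDiffOn ℝ 1 (deriv f) U := hf.deriv_of_isOpen hU (by norm_num)
  have hcd2 : ContDiffOn ℝ 0 (deriv (deriv f)) U := hcd1.deriv_of_isOpen hU (by norm_num)
  have hf1 : ∀ x ∈ Set.Icc a b, HasDerivAt f (deriv f x) x := fun x hx =>
    ((hf.differentiableOn (by norm_num)).differentiableAt (hU.mem_nhds (hUab hx))).hasDerivAt
  have hf2 : ∀ x ∈ Set.Icc a b, HasDerivAt (deriv f) (deriv (deriv f) x) x := fun x hx =>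
    ((hcd1.differentiableOn (by norm_num)).differentiableAt (hU.mem_nhds (hUab hx))).hasDerivAt
  have cf2 : ContinuousOn (deriv (deriv f)) (Set.Icc a b) := hcd2.continuousOn.mono hUab
  have cf1 : ContinuousOn (deriv f) (Set.Icc a b) := hcd1.continuousOn.mono hUab
  obtain ⟨B2, hB2⟩ := isCompact_Icc.exists_bound_of_continuousOn cf2
  obtain ⟨t0, ht0, hmin⟩ := isCompact_Icc.exists_isMinOn (Set.nonempty_Icc.2 hab.le) cf1.abs
  have hreg : Pool.Agent.W5h30.MW.Reg f (deriv f) (deriv (deriv f)) a b B2 |deriv f t0| :=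
    ⟨hab, hf1, hf2, cf2, fun x hx => by rw [← Real.norm_eq_abs]; exact hB2 x hx,
      abs_pos.2 (hf0 t0 ht0), fun x hx => hmin hx⟩
  have hFO : Pool.Agent.W5h30.SM.FO f a b :=
    Pool.Agent.W5h30.SM.curve_FO hab hf1 hf2 cf2 fun x hx => Or.inl (hf0 x hx)
  obtain ⟨c1, hc1, H1, hlaw⟩ := hreg.law hFO n q η hη0 (by linarith)
  obtain ⟨c2, hc2, H2, hlaw2⟩ := hreg.law hFO 2 q η hη0 (by linarith)
  have hpair := Pool.Agent.W5h30.MW.pair_free (max B 2) (le_max_right _ _) ((q : ℝ) + 3) ε1 hε10 hε11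
  obtain ⟨C3, hC3⟩ : ∃ C3 : ℝ, C3 = 3 ^ (q + 3) * (q + 2) := ⟨_, rfl⟩
  have hC30 : 0 < C3 := by rw [hC3]; positivity
  obtain ⟨c, hc⟩ : ∃ c : ℝ, c = min (min c1 c2) (ε1 / 2) := ⟨_, rfl⟩
  have hc0 : 0 < c := by rw [hc]; exact lt_min (lt_min hc1 hc2) (by positivity)
  have hca : c ≤ c1 := by rw [hc]; exact (min_le_left _ _).trans (min_le_left _ _)
  have hcb : c ≤ c2 := by rw [hc]; exact (min_le_left _ _).trans (min_le_right _ _)
  have hcc : 2 * c ≤ ε1 := by
    have : c ≤ ε1 / 2 := by rw [hc]; exact min_le_right _ _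
    linarith
  refine ⟨c, hc0, ?_⟩
  have hev : ∀ᶠ H : ℕ in Filter.atTop, C3 ≤ (H : ℝ) ^ c ∧ 6 * ((n : ℝ) + 2) + 3 ≤ (H : ℝ) ^ (ε1 / 2) ∧
      2 * (n : ℝ) + 2 ≤ (H : ℝ) ^ (ε1 / 4) ∧ H1 ≤ H ∧ H2 ≤ H ∧ 2 ≤ H := by
    filter_upwards [Pool.Agent.W5h30.LL.ev_rpow C3 c hc0,
      Pool.Agent.W5h30.LL.ev_rpow (6 * ((n : ℝ) + 2) + 3) (ε1 / 2) (by positivity),
      Pool.Agent.W5h30.LL.ev_rpow (2 * (n : ℝ) + 2) (ε1 / 4) (by positivity), Filter.eventually_ge_atTop H1,
      Filter.eventually_ge_atTop H2, Filter.eventually_ge_atTop 2] with H a b c d e f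
    exact ⟨a, b, c, d, e, f⟩
  obtain ⟨H0, hH0⟩ := Filter.eventually_atTop.1 (hev.and hpair)
  refine ⟨H0, fun H hH => ?_⟩
  obtain ⟨⟨g1, g2, g3, g4, g5, g6⟩, hpf⟩ := hH0 H hH
  have hHR2 : (2 : ℝ) ≤ H := by exact_mod_cast g6
  have hHR : (1 : ℝ) ≤ H := by linarith
  have hHpos : (0 : ℝ) < H := by linarith
  have hn0 : (0 : ℝ) ≤ n := Nat.cast_nonneg n
  have hfin' : (Pool.Agent.Y933.KG.Alg (q + 2) H).Finite := Pool.Agent.Y933.KG.Alg_finite q H
  have hsub : AlgIn (q + 2) H a b ⊆ Pool.Agent.Y933.KG.Alg (q + 2) H := fun x hx => hx.1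
  have hfin : (AlgIn (q + 2) H a b).Finite := hfin'.subset hsub
  obtain ⟨s, hs⟩ : ∃ s : Finset ℝ, s = hfin'.toFinset := ⟨_, rfl⟩
  have hmem : ∀ x, x ∈ s ↔ x ∈ Pool.Agent.Y933.KG.Alg (q + 2) H := by
    intro x
    rw [hs, Set.Finite.mem_toFinset]
  have hcount : ∀ P : ℝ → Prop, {x | x ∈ AlgIn (q + 2) H a b ∧ P x}.ncard =
      Pool.Agent.W5h30.LL.cn s (fun x => x ∈ Set.Icc a b ∧ P x) := by
    intro P
    have h1 : {x | x ∈ AlgIn (q + 2) H a b ∧ P x} =
        ((s.filter (fun x => x ∈ Set.Icc a b ∧ P x) : Finset ℝ) : Set ℝ) := by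
      rw [Finset.coe_filter]
      ext x
      show ((x ∈ Pool.Agent.Y933.KG.Alg (q + 2) H ∧ x ∈ Set.Icc a b) ∧ P x) ↔
        (x ∈ s ∧ x ∈ Set.Icc a b ∧ P x)
      rw [hmem, and_assoc]
    rw [h1, Set.ncard_coe_finset]
    unfold Pool.Agent.W5h30.LL.cn
    congr 1
    ext x
    simp only [Finset.mem_filter]
  have hcard : (AlgIn (q + 2) H a b).ncard = Pool.Agent.W5h30.LL.cn s (fun x => x ∈ Set.Icc a b) := by
    have h1 := hcount fun _ => True
    have h2 : {x | x ∈ AlgIn (q + 2) H a b ∧ True} = AlgIn (q + 2) H a b := by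
      ext x
      exact ⟨fun h => h.1, fun h => ⟨h, trivial⟩⟩
    rw [h2] at h1
    rw [h1]
    congr 1
    funext x
    exact propext ⟨fun h => h.1, fun h => ⟨h, trivial⟩⟩
  obtain ⟨hpos, hl⟩ := hlaw H g4 s hmem
  obtain ⟨_, hl2⟩ := hlaw2 H g5 s hmem
  have hq3 : ((q + 2 : ℕ) : ℝ) + 1 = (q : ℝ) + 3 := by push_cast; ring
  have hηpow : (H : ℝ) ^ η ≤ (H : ℝ) ^ ε := Real.rpow_le_rpow_of_exponent_le hHR (by rw [hη]; linarith)
  have hexp : (H : ℝ) ^ ((q : ℝ) + 3 - ε) ≤ (H : ℝ) ^ ((q : ℝ) + 3 - η) :=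
    Real.rpow_le_rpow_of_exponent_le hHR (by rw [hη]; linarith)
  -- from the library
  have huni : ∀ (n' : ℕ) (c' : ℝ), c ≤ c' → (∀ m K : Fin n' → ℕ, (∀ j, 1 ≤ m j) → (∀ j, 1 ≤ K j) →
      (∀ j, (m j : ℝ) * K j ≤ (H : ℝ) ^ ((q : ℝ) + 3 - η)) →
      (∀ k : Fin n' → ℤ, k ≠ 0 → (∀ j, |(k j : ℝ)| ≤ (H : ℝ) ^ η * K j) →
        (H : ℝ) ^ η ≤ |∑ j, (k j : ℝ) * m j|) →
      ∀ E : Finset (Fin n' → ℕ), (∀ w ∈ E, ∀ j, w j < K j) →
      |(Pool.Agent.W5h30.LL.cn s (fun x => x ∈ Pool.Agent.W5h30.MW.PVm a b m K f E) : ℝ) /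
        (Pool.Agent.W5h30.LL.cn s (fun x => x ∈ Set.Icc a b) : ℝ) -
        (E.card : ℝ) / (∏ j, (K j : ℝ))| ≤ (H : ℝ) ^ (-c')) →
      ∀ m K : Fin n' → ℕ, (∀ j, 1 ≤ m j) → (∀ j, 1 ≤ K j) →
      (∀ j, (m j : ℝ) * K j ≤ (H : ℝ) ^ ((q : ℝ) + 3 - η)) →
      (∀ k : Fin n' → ℤ, k ≠ 0 → (∀ j, |(k j : ℝ)| ≤ (H : ℝ) ^ η * K j) →
        (H : ℝ) ^ η ≤ |∑ j, (k j : ℝ) * m j|) →
      Uniform (AlgIn (q + 2) H a b) (fun x => words m K (f x)) K ((H : ℝ) ^ (-c)) := by
    intro n' c' hcc' hlib m K hm hK hmK hfree E hE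
    obtain ⟨Ef, hEf⟩ : ∃ Ef : Finset (Fin n' → ℕ),
        Ef = (Fintype.piFinset fun i => range (K i)).filter (fun w => w ∈ E) := ⟨_, rfl⟩
    have hEf' : ∀ w, w ∈ Ef ↔ w ∈ E := by
      intro w
      rw [hEf, mem_filter, Fintype.mem_piFinset]
      exact ⟨fun h => h.2, fun h => ⟨fun i => mem_range.2 (hE h i), h⟩⟩
    have hEcoe : E = (Ef : Set (Fin n' → ℕ)) := by
      ext w
      rw [mem_coe, hEf']
    have h1 := hlib m K hm hK hmK hfree Ef (fun w hw j => hE ((hEf' w).1 hw) j)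
    have h3 : Pool.Agent.W5h30.LL.cn s (fun x => x ∈ Pool.Agent.W5h30.MW.PVm a b m K f Ef) =
        Pool.Agent.W5h30.LL.cn s (fun x => x ∈ Set.Icc a b ∧ words m K (f x) ∈ E) := by
      congr 1
      funext x
      apply propext
      show (x ∈ Set.Icc a b ∧ Pool.Agent.W5h30.MW.cellm m K f x ∈ Ef) ↔ _
      rw [hEf']
      exact Iff.rfl
    rw [h3, ← hcount, ← hcard] at h1
    rw [hEcoe, Set.ncard_coe_finset, ← hEcoe]
    exact h1.trans (Real.rpow_le_rpow_of_exponent_le hHR (by linarith))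
  have hlt : ∀ (n' : ℕ) (m K : Fin n' → ℕ) (y : ℝ), (∀ i, 1 ≤ K i) → ∀ i, words m K y i < K i :=
    fun n' m K y hK i => Pool.Agent.W5h30.SM.cell_lt (hK i) _
  -- a relation
  have hsing : ∀ (n' : ℕ), (n' : ℝ) ≤ n + 2 → ∀ m K : Fin n' → ℕ, (∀ i, 1 ≤ K i) →
      Relation m K ((H : ℝ) ^ (-ε)) →
      Singular (AlgIn (q + 2) H a b) (fun x => words m K (f x)) K ((H : ℝ) ^ (-c)) := by
    rintro n' hn' m K hKpos ⟨k, hk, hkle, hk0⟩
    have hKprod : 0 < ∏ i, (K i : ℝ) := prod_pos fun i _ => by exact_mod_cast hKpos i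
    have hn'0 : (0 : ℝ) ≤ n' := Nat.cast_nonneg n'
    have hmr : (H : ℝ) ^ (-ε) ≤ (H : ℝ) ^ (-ε1) := Real.rpow_le_rpow_of_exponent_le hHR (by linarith)
    have hlt1 : (H : ℝ) ^ (-ε1) < 1 := Real.rpow_lt_one_of_one_lt_of_neg (by linarith) (by linarith)
    have hk1 : ∑ i, (k i : ℝ) * m i = 0 := by
      have h1 : |((∑ i, k i * (m i : ℤ) : ℤ) : ℝ)| < 1 := by
        push_cast
        linarith
      have h2 : |(∑ i, k i * (m i : ℤ) : ℤ)| < 1 := by exact_mod_cast h1
      have h3 := Int.abs_lt_one_iff.1 h2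
      exact_mod_cast congrArg (fun z : ℤ => (z : ℝ)) h3
    obtain ⟨δ, hδ⟩ : ∃ δ : ℝ, δ = n' * (H : ℝ) ^ (-ε1) := ⟨_, rfl⟩
    have hMe2 : (H : ℝ) ^ (-ε1) * (H : ℝ) ^ (ε1 / 2) = (H : ℝ) ^ (-(ε1 / 2)) := by
      rw [← Real.rpow_add hHpos]
      ring_nf
    have hMe3 : (H : ℝ) ^ (-(ε1 / 2)) ≤ 1 := Real.rpow_le_one_of_one_le_of_nonpos hHR (by linarith)
    have hMe4 : (0 : ℝ) < (H : ℝ) ^ (-ε1) := by positivity
    have hsmall : (6 * (n' : ℝ) + 3) * (H : ℝ) ^ (-ε1) ≤ (H : ℝ) ^ (-(ε1 / 2)) := by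
      rw [← hMe2, mul_comm]
      exact mul_le_mul_of_nonneg_left (by linarith) hMe4.le
    have hδ0 : 0 ≤ δ := by rw [hδ]; positivity
    have hδ1 : δ ≤ 1 / 2 := by rw [hδ]; nlinarith
    have hcount2 := Pool.Agent.W5h30.MU.card_rel K (fun i => hKpos i) k hk 0 δ hδ0 hδ1
      (X := (H : ℝ) ^ (-ε1)) (fun i => by
        rw [mul_comm]
        exact (hkle i).trans (mul_le_mul_of_nonneg_right hmr (Nat.cast_nonneg _)))
    refine ⟨(((Fintype.piFinset fun i => range (K i)).filter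
      (fun w : Fin n' → ℕ => ∃ p : ℤ, |(∑ i, (k i : ℝ) * w i / K i) - 0 - p| ≤ δ) : Finset (Fin n' → ℕ)) :
        Set (Fin n' → ℕ)), ?_, ?_, ?_⟩
    · intro w hw i
      rw [mem_coe, mem_filter, Fintype.mem_piFinset] at hw
      exact mem_range.1 (hw.1 i)
    · rw [Set.ncard_coe_finset, div_le_iff₀ hKprod]
      refine hcount2.trans ?_
      refine mul_le_mul_of_nonneg_right ?_ hKprod.le
      calc 6 * δ + 3 * (H : ℝ) ^ (-ε1) = (6 * (n' : ℝ) + 3) * (H : ℝ) ^ (-ε1) := by rw [hδ]; ring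
        _ ≤ (H : ℝ) ^ (-(ε1 / 2)) := hsmall
        _ ≤ (H : ℝ) ^ (-c) := Real.rpow_le_rpow_of_exponent_le hHR (by linarith)
    · intro x _
      rw [mem_coe, mem_filter, Fintype.mem_piFinset]
      refine ⟨fun i => mem_range.2 (hlt n' m K (f x) hKpos i), -∑ i, k i * ⌊(m i : ℝ) * f x⌋, ?_⟩
      have hz : ∑ i, (k i : ℝ) * ((m i : ℝ) * f x) = 0 := by
        have h1 : ∑ i, (k i : ℝ) * ((m i : ℝ) * f x) = (∑ i, (k i : ℝ) * m i) * f x := by
          rw [sum_mul]
          refine sum_congr rfl fun i _ => ?_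
          ring
        rw [h1, hk1, zero_mul]
      have hexp2 : (∑ i, (k i : ℝ) * ((words m K (f x) i : ℕ) : ℝ) / K i) - 0 -
          ((-∑ i, k i * ⌊(m i : ℝ) * f x⌋ : ℤ) : ℝ) =
          -∑ i, (k i : ℝ) * (Int.fract ((m i : ℝ) * f x) - ((words m K (f x) i : ℕ) : ℝ) / K i) := by
        push_cast
        rw [sub_neg_eq_add, sub_zero, ← sum_add_distrib, ← sum_neg_distrib, ← sub_eq_zero, ← sum_sub_distrib,
          ← hz]
        refine sum_congr rfl fun i _ => ?_
        have h5 := Int.self_sub_floor ((m i : ℝ) * f x)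
        rw [← h5]
        ring
      rw [hexp2, abs_neg, hδ]
      refine (abs_sum_le_sum_abs _ _).trans ?_
      have hterm : ∀ i ∈ (univ : Finset (Fin n')), |(k i : ℝ) * (Int.fract ((m i : ℝ) * f x) -
            ((words m K (f x) i : ℕ) : ℝ) / K i)| ≤ (H : ℝ) ^ (-ε1) := by
        intro i _
        have hKi : (0 : ℝ) < K i := by exact_mod_cast hKpos i
        have h5 : |Int.fract ((m i : ℝ) * f x) - ((words m K (f x) i : ℕ) : ℝ) / K i| ≤ 1 / K i := by
          unfold words word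
          have hff := Int.fract_nonneg ((m i : ℝ) * f x)
          have h6 := Nat.floor_le (mul_nonneg hKi.le hff)
          have h7 := Nat.lt_floor_add_one ((K i : ℝ) * Int.fract ((m i : ℝ) * f x))
          have h8 : ((⌊(K i : ℝ) * Int.fract ((m i : ℝ) * f x)⌋₊ : ℕ) : ℝ) / K i ≤
              Int.fract ((m i : ℝ) * f x) := by
            rw [div_le_iff₀ hKi]
            linarith
          have h9 : Int.fract ((m i : ℝ) * f x) ≤
              (((⌊(K i : ℝ) * Int.fract ((m i : ℝ) * f x)⌋₊ : ℕ) : ℝ) + 1) / K i := by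
            rw [le_div_iff₀ hKi]
            linarith
          rw [add_div] at h9
          rw [abs_le]
          constructor
          · have : (0 : ℝ) ≤ 1 / K i := by positivity
            linarith
          · linarith
        rw [abs_mul]
        calc |(k i : ℝ)| * _ ≤ ((H : ℝ) ^ (-ε1) * K i) * (1 / K i) :=
              mul_le_mul ((hkle i).trans (mul_le_mul_of_nonneg_right hmr hKi.le)) h5 (abs_nonneg _)
                (by positivity)
          _ = (H : ℝ) ^ (-ε1) := by field_simp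
      refine (sum_le_sum hterm).trans ?_
      rw [sum_const, card_univ, Fintype.card_fin, nsmul_eq_mul]
  refine ⟨hfin, ?_, ?_, ?_, ?_⟩
  · rw [← hcard] at hpos
    exact Set.nonempty_of_ncard_ne_zero hpos.ne'
  · intro m K hmK hcond
    refine huni n c1 hca hl m K (fun j => (hmK j).1) (fun j => (hmK j).2.1) (fun j => by
      have := (hmK j).2.2
      rw [hq3] at this
      exact this.trans hexp) ?_
    intro k hk hkle
    rcases hcond with hrel | hsep
    · by_contra hcon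
      push Not at hcon
      exact hrel ⟨k, hk, fun i => (hkle i).trans (mul_le_mul_of_nonneg_right hηpow (Nat.cast_nonneg _)),
        hcon.le.trans hηpow⟩
    · obtain ⟨hsep0, hsep⟩ := hsep
      have hη1 : (H : ℝ) ^ ε1 ≤ (H : ℝ) ^ ε := Real.rpow_le_rpow_of_exponent_le hHR hε1e
      obtain ⟨i0, hi0, hmax⟩ : ∃ i0, k i0 ≠ 0 ∧ ∀ i, k i ≠ 0 → (m i : ℝ) ≤ m i0 := by
        have hne : (univ.filter fun i => k i ≠ 0).Nonempty := by
          obtain ⟨i, hi⟩ := Function.ne_iff.1 hk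
          exact ⟨i, mem_filter.2 ⟨mem_univ _, hi⟩⟩
        obtain ⟨i0, h1, h2⟩ := exists_max_image (univ.filter fun i => k i ≠ 0) (fun i => (m i : ℝ)) hne
        exact ⟨i0, (mem_filter.1 h1).2, fun i hi => h2 i (mem_filter.2 ⟨mem_univ _, hi⟩)⟩
      have hm0 : (0 : ℝ) < m i0 := by
        have := (hmK i0).1
        exact_mod_cast this
      have hterm : ∀ i ∈ univ.erase i0, |(k i : ℝ) * m i| * (H : ℝ) ^ (ε1 / 2) ≤ m i0 := by
        intro i hi
        rw [mem_erase] at hi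
        by_cases hki : k i = 0
        · rw [hki]
          simp only [Int.cast_zero, zero_mul, abs_zero]
          exact hm0.le
        have hKi : (1 : ℝ) ≤ K i := by exact_mod_cast (hmK i).2.1
        have hKi0 : (1 : ℝ) ≤ K i0 := by exact_mod_cast (hmK i0).2.1
        have h1 : (m i : ℝ) * K i * (H : ℝ) ^ ε1 ≤ m i0 := by
          rcases hsep i i0 hi.1 with h | h
          · exact (mul_le_mul_of_nonneg_left hη1 (by positivity)).trans h
          · exfalso
            have h2 := hmax i hki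
            have h3 : 1 < (H : ℝ) ^ ε := Real.one_lt_rpow (by linarith) hε
            have h5 : (m i0 : ℝ) ≤ (m i0 : ℝ) * K i0 := by nlinarith
            have h6 : 0 < (m i0 : ℝ) * K i0 := by positivity
            nlinarith
        have hmi : (0 : ℝ) ≤ m i := Nat.cast_nonneg _
        rw [abs_mul, Nat.abs_cast]
        calc |(k i : ℝ)| * m i * (H : ℝ) ^ (ε1 / 2)
            ≤ ((H : ℝ) ^ η * K i) * m i * (H : ℝ) ^ (ε1 / 2) := by
              have := hkle i
              gcongr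
          _ = (m i : ℝ) * K i * ((H : ℝ) ^ η * (H : ℝ) ^ (ε1 / 2)) := by ring
          _ ≤ (m i : ℝ) * K i * (H : ℝ) ^ ε1 := by
              rw [← Real.rpow_add hHpos]
              refine mul_le_mul_of_nonneg_left ?_ (by positivity)
              exact Real.rpow_le_rpow_of_exponent_le hHR (by rw [hη]; linarith)
          _ ≤ _ := h1
      have h2 : |∑ i ∈ univ.erase i0, (k i : ℝ) * m i| ≤ (m i0 : ℝ) / 2 := by
        have hp : (0 : ℝ) < (H : ℝ) ^ (ε1 / 2) := by positivity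
        have h3 : |∑ i ∈ univ.erase i0, (k i : ℝ) * m i| ≤ n * ((m i0 : ℝ) / (H : ℝ) ^ (ε1 / 2)) := by
          refine (abs_sum_le_sum_abs _ _).trans ((sum_le_sum fun i hi =>
            (le_div_iff₀ hp).2 (hterm i hi)).trans ?_)
          rw [sum_const, nsmul_eq_mul]
          have h4 : (((univ.erase i0 : Finset (Fin n))).card : ℝ) ≤ n := by
            have h5 : (univ.erase i0 : Finset (Fin n)).card ≤ (univ : Finset (Fin n)).card :=
              card_le_card (erase_subset _ _)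
            rw [card_univ, Fintype.card_fin] at h5
            exact_mod_cast h5
          gcongr
        refine h3.trans ?_
        rw [mul_div_assoc', div_le_div_iff₀ hp (by norm_num)]
        have h6 : (n : ℝ) * 2 ≤ (H : ℝ) ^ (ε1 / 2) := by linarith
        calc (n : ℝ) * m i0 * 2 = (n * 2) * m i0 := by ring
          _ ≤ (H : ℝ) ^ (ε1 / 2) * m i0 := mul_le_mul_of_nonneg_right h6 hm0.le
          _ = _ := mul_comm _ _
      have h3 : (m i0 : ℝ) ≤ |(k i0 : ℝ) * m i0| := by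
        rw [abs_mul, abs_of_pos hm0]
        have : (1 : ℝ) ≤ |(k i0 : ℝ)| := by exact_mod_cast Int.one_le_abs hi0
        nlinarith
      have h4 : ∑ j, (k j : ℝ) * m j = (k i0 : ℝ) * m i0 + ∑ i ∈ univ.erase i0, (k i : ℝ) * m i :=
        (add_sum_erase _ _ (mem_univ i0)).symm
      have h5 : (m i0 : ℝ) / 2 ≤ |∑ j, (k j : ℝ) * m j| := by
        rw [h4]
        have h6 := abs_sub_abs_le_abs_add ((k i0 : ℝ) * m i0) (∑ i ∈ univ.erase i0, (k i : ℝ) * m i)
        linarith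
      have h6 : (H : ℝ) ^ ε1 ≤ m i0 := hη1.trans (hsep0 i0)
      have h7 : (H : ℝ) ^ η * 2 ≤ (H : ℝ) ^ ε1 := by
        have h8 : (2 : ℝ) ≤ (H : ℝ) ^ (ε1 / 4) := by linarith
        calc (H : ℝ) ^ η * 2 ≤ (H : ℝ) ^ η * (H : ℝ) ^ (ε1 / 4) := by gcongr
          _ = (H : ℝ) ^ (ε1 / 2) := by
              rw [← Real.rpow_add hHpos]
              congr 1
              rw [hη]
              ring
          _ ≤ _ := Real.rpow_le_rpow_of_exponent_le hHR (by linarith)
      linarith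
  · intro m K hmK hcond
    rcases hcond with hrel | hcond
    · exact hsing n (by linarith) m K (fun i => (hmK i).2) hrel
    · have hKp : 0 < ∏ i, (K i : ℝ) := prod_pos fun i _ => by exact_mod_cast (hmK i).2
      refine ⟨(fun x : ℝ => words m K (f x)) '' AlgIn (q + 2) H a b, ?_, ?_, ?_⟩
      · rintro _ ⟨x, _, rfl⟩
        exact hlt n m K (f x) fun i => (hmK i).2
      · have h1 : ((fun x : ℝ => words m K (f x)) '' AlgIn (q + 2) H a b).ncard ≤
            (AlgIn (q + 2) H a b).ncard := Set.ncard_image_le hfin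
        have h2 : (AlgIn (q + 2) H a b).ncard ≤ (Pool.Agent.Y933.KG.Om q H).card := by
          rw [hcard]
          exact (Pool.Agent.W5h30.LL.cn_le_NP hmem _).trans (Pool.Agent.W5h30.LL.NP_le q H _)
        have h3 := Pool.Agent.Y933.KG.card_Om_le q H (by omega)
        rw [← hC3] at h3
        have h4 : (((fun x : ℝ => words m K (f x)) '' AlgIn (q + 2) H a b).ncard : ℝ) ≤
            C3 * (H : ℝ) ^ (q + 3) := le_trans (by exact_mod_cast h1.trans h2) h3
        rw [div_le_iff₀ hKp]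
        refine h4.trans ?_
        rw [hq3] at hcond
        calc C3 * (H : ℝ) ^ (q + 3) ≤ (H : ℝ) ^ c * (H : ℝ) ^ (q + 3) :=
              mul_le_mul_of_nonneg_right g1 (by positivity)
          _ = (H : ℝ) ^ (c + ((q : ℝ) + 3)) := by
              rw [Real.rpow_add hHpos]
              congr 1
              rw [← Real.rpow_natCast]
              push_cast
              rfl
          _ ≤ (H : ℝ) ^ (-c + ((q : ℝ) + 3 + ε)) := Real.rpow_le_rpow_of_exponent_le hHR (by linarith)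
          _ = (H : ℝ) ^ (-c) * (H : ℝ) ^ ((q : ℝ) + 3 + ε) := Real.rpow_add hHpos _ _
          _ ≤ _ := mul_le_mul_of_nonneg_left hcond (by positivity)
      · intro x hx
        exact ⟨x, hx, rfl⟩
  · intro β s' K hβ
    have hscpos : ∀ i, 0 < scale β s' i := fun i => pow_pos (by have := (hβ i).1; omega) _
    have hKpos : ∀ i, 1 ≤ K i := fun i => (hβ i).2.2
    refine ⟨fun hw hcond => ?_, fun hcond => ?_⟩
    · refine huni 2 c2 hcb hl2 (scale β s') K (fun j => hscpos j) hKpos (fun j => by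
        have := (hw j).2
        rw [hq3] at this
        exact this.trans hexp) ?_
      have hηε : (H : ℝ) ^ ε1 ≤ (H : ℝ) ^ ε := Real.rpow_le_rpow_of_exponent_le hHR hε1e
      have h1 := hpf β s' K (fun j => ⟨(hβ j).1, (hβ j).2.1.trans (le_max_left _ _)⟩) hKpos
        (fun j => by
          have h2 := (hw j).2
          rw [hq3] at h2
          have h3 : ((scale β s' j : ℕ) : ℝ) = (β j : ℝ) ^ (s' j) := by unfold scale; push_cast; rfl
          rw [h3] at h2
          exact h2.trans (Real.rpow_le_rpow_of_exponent_le hHR (by linarith)))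
        (fun j => by
          have h2 := (hw j).1
          have h3 : ((scale β s' j : ℕ) : ℝ) = (β j : ℝ) ^ (s' j) := by unfold scale; push_cast; rfl
          rw [h3] at h2
          exact hηε.trans h2)
        (by
          have h3 : ∀ j, ((scale β s' j : ℕ) : ℝ) = (β j : ℝ) ^ (s' j) := fun j => by
            unfold scale; push_cast; rfl
          rw [h3, h3] at hcond
          rcases hcond with h | h
          · left
            exact (mul_le_mul_of_nonneg_left hηε (by positivity)).trans h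
          · right
            exact (mul_le_mul_of_nonneg_left hηε (by positivity)).trans h)
      intro k hk hkle
      have h2 := h1 k hk (fun j => by
        have := hkle j
        rw [hη] at this
        exact this)
      rw [hη, Fin.sum_univ_two]
      have h3 : ∀ j, ((scale β s' j : ℕ) : ℝ) = (β j : ℝ) ^ (s' j) := fun j => by
        unfold scale; push_cast; rfl
      rw [h3, h3]
      exact h2
    · obtain ⟨g, hg⟩ : ∃ g : ℕ, g = Nat.gcd (scale β s' 0) (scale β s' 1) := ⟨_, rfl⟩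
      rw [← hg] at hcond
      have hgpos : 0 < g := by rw [hg]; exact Nat.gcd_pos_of_pos_left _ (hscpos 0)
      have hgR : (0 : ℝ) < g := by exact_mod_cast hgpos
      obtain ⟨u, hu⟩ : g ∣ scale β s' 0 := by rw [hg]; exact Nat.gcd_dvd_left _ _
      obtain ⟨v, hv⟩ : g ∣ scale β s' 1 := by rw [hg]; exact Nat.gcd_dvd_right _ _
      have hHe : (0 : ℝ) < (H : ℝ) ^ ε := by positivity
      have hvpos : 0 < v := by
        rcases Nat.eq_zero_or_pos v with h | h
        · have := hscpos 1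
          rw [hv, h, mul_zero] at this
          omega
        · exact h
      refine hsing 2 (by push_cast; linarith) (scale β s') K hKpos ⟨![(v : ℤ), -(u : ℤ)], ?_, ?_, ?_⟩
      · intro h0
        have h1 := congrFun h0 0
        simp only [Matrix.cons_val_zero, Pi.zero_apply] at h1
        omega
      · have hx : ∀ z w : ℕ, (w : ℝ) * (H : ℝ) ^ ε ≤ z → (w : ℝ) ≤ (H : ℝ) ^ (-ε) * z := by
          intro z w h
          rw [Real.rpow_neg hHpos.le, ← div_eq_inv_mul, le_div_iff₀ hHe]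
          exact h
        have hv' : (v : ℝ) * (H : ℝ) ^ ε ≤ K 0 := by
          have h1 := hcond.1
          rw [hv] at h1
          push_cast at h1
          have h2 : (g : ℝ) * ((v : ℝ) * (H : ℝ) ^ ε) ≤ g * K 0 := by linarith
          exact le_of_mul_le_mul_left h2 hgR
        have hu' : (u : ℝ) * (H : ℝ) ^ ε ≤ K 1 := by
          have h1 := hcond.2
          rw [hu] at h1
          push_cast at h1
          have h2 : (g : ℝ) * ((u : ℝ) * (H : ℝ) ^ ε) ≤ g * K 1 := by linarith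
          exact le_of_mul_le_mul_left h2 hgR
        intro i
        fin_cases i
        · simp only [Fin.zero_eta, Matrix.cons_val_zero, Int.cast_natCast, Nat.abs_cast]
          exact hx _ _ hv'
        · show |((-(u : ℤ) : ℤ) : ℝ)| ≤ (H : ℝ) ^ (-ε) * K 1
          rw [Int.cast_neg, abs_neg, Int.cast_natCast, Nat.abs_cast]
          exact hx _ _ hu'
      · rw [Fin.sum_univ_two]
        simp only [Matrix.cons_val_zero, Matrix.cons_val_one, Int.cast_neg, Int.cast_natCast]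
        rw [hu, hv]
        push_cast
        have h1 : (v : ℝ) * (g * u) + -(u : ℝ) * (g * v) = 0 := by ring
        rw [h1, abs_zero]
        positivity

end Pool.Agent.Results.MP_f2f914_nt.SeveralBases
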