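import Mathlib
import Pool.Agent.W5h30.LL.Digit

/-!
# The local law of the real algebraic numbers of given degree, and a sharp cutoff for their digits

Let `d ≥ 2` and `ε > 0`. The real algebraic numbers `x` of degree `d` and height at most `H` are
distributed like a random real number with an explicit density on all scales down to `H^-(d+1-ε)`, in
total variation and up to `H^-c`. As a consequence, for all integers `m, K` with `m ≥ H^ε` and
`m K ≤ H^(d+1-ε)` the integer part of `K {m x}` is uniformly distributed on `{0, ..., K - 1}` up to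
`H^-c` in total variation: for `m = b^s` and `K = b^N` this says that the digits in base `b` of `x` at the
places `s + 1, ..., s + N`, jointly, are indistinguishable from random digits, when
`ε log_b H ≤ s` and `s + N ≤ (d + 1 - ε) log_b H`. The number `d + 1` is sharp: blocks of
`(d + 1 + ε) log_b H` digits are at a distance of at least `1 - H^-c` from random digits.
-/

set_option autoImplicit false

namespace Pool.Agent.Results.MP_f2f914_nt.SharpCutoff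

open MeasureTheory Polynomial

/-- The real algebraic numbers of degree `d` and height at most `H` (real roots of irreducible integer
polynomials of degree `d` with coefficients at most `H` in absolute value). -/
def AlgNumbers (d H : ℕ) : Set ℝ :=
  {x | ∃ P : ℤ[X], Irreducible P ∧ P.natDegree = d ∧ (∀ i, |P.coeff i| ≤ H) ∧ aeval x P = 0}

/-- The integral of `|a_1 + 2 a_2 t + ... + d a_d t^(d-1)|` over all `a` in `[-1, 1]^d` with
`|a_1 t + a_2 t^2 + ... + a_d t^d| ≤ 1` (the density of the real roots of the polynomials of degree `d`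
with independent coefficients, uniform on `[-1, 1]`, up to a constant factor). -/
noncomputable def rootDensity (d : ℕ) (t : ℝ) : ℝ :=
  ∫ a in {a : Fin d → ℝ | (∀ i, |a i| ≤ 1) ∧ |∑ i, a i * t ^ ((i : ℕ) + 1)| ≤ 1},
    |∑ i, a i * (((i : ℕ) + 1) * t ^ (i : ℕ))|

/-- The proportion of the `x` in `AlgNumbers d H` with `P x`. -/
noncomputable def proportion (d H : ℕ) (P : ℝ → Prop) : ℝ :=
  ({x | x ∈ AlgNumbers d H ∧ P x}.ncard : ℝ) / ((AlgNumbers d H).ncard : ℝ)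

lemma dens_eq (n : ℕ) (t : ℝ) : rootDensity (n + 1) t = Pool.Agent.W5h30.LL.ph n t := by
  classical
  unfold rootDensity Pool.Agent.W5h30.LL.ph
  have hmeas : MeasurableSet {a : Fin (n + 1) → ℝ | (∀ i, |a i| ≤ 1) ∧ |∑ i, a i * t ^ ((i : ℕ) + 1)| ≤ 1} := by
    apply IsClosed.measurableSet
    rw [Set.ofPred_and]
    refine IsClosed.inter ?_ ?_
    · rw [Set.ofPred_forall]
      exact isClosed_iInter fun i => isClosed_le (continuous_apply i).abs continuous_const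
    · refine isClosed_le (Continuous.abs ?_) continuous_const
      exact continuous_finsetSum _ fun i _ => (continuous_apply i).mul continuous_const
  rw [← integral_indicator hmeas]
  refine integral_congr_ae (Filter.Eventually.of_forall fun a => ?_)
  unfold Pool.Agent.W5h30.LL.G
  by_cases h : (∀ i, |a i| ≤ 1) ∧ |Pool.Agent.W5h30.LL.fa a t| ≤ 1
  · have h' : a ∈ {a : Fin (n + 1) → ℝ | (∀ i, |a i| ≤ 1) ∧ |∑ i, a i * t ^ ((i : ℕ) + 1)| ≤ 1} := h
    exact (Set.indicator_of_mem h' _).trans (if_pos h).symm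
  · have h' : a ∉ {a : Fin (n + 1) → ℝ | (∀ i, |a i| ≤ 1) ∧ |∑ i, a i * t ^ ((i : ℕ) + 1)| ≤ 1} := h
    exact (Set.indicator_of_notMem h' _).trans (if_neg h).symm

lemma floor_fract (m K : ℕ) (hK : 1 ≤ K) (x : ℝ) :
    ⌊(K : ℝ) * Int.fract ((m : ℝ) * x)⌋₊ = (⌊((m * K : ℕ) : ℝ) * x⌋ % (K : ℤ)).toNat := by
  have hK0 : (0 : ℤ) < K := by exact_mod_cast hK
  have hKR : (0 : ℝ) < K := by exact_mod_cast hK
  rw [← Int.floor_toNat]
  congr 1
  have h1 : (K : ℝ) * Int.fract ((m : ℝ) * x) = ((m * K : ℕ) : ℝ) * x - ((⌊(m : ℝ) * x⌋ * K : ℤ) : ℝ) := by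
    unfold Int.fract
    push_cast
    ring
  have h2 : ⌊(K : ℝ) * Int.fract ((m : ℝ) * x)⌋ = ⌊((m * K : ℕ) : ℝ) * x⌋ - ⌊(m : ℝ) * x⌋ * K := by
    rw [h1, Int.floor_sub_intCast]
  have h3 : 0 ≤ ⌊(K : ℝ) * Int.fract ((m : ℝ) * x)⌋ :=
    Int.floor_nonneg.2 (mul_nonneg hKR.le (Int.fract_nonneg _))
  have h4 : ⌊(K : ℝ) * Int.fract ((m : ℝ) * x)⌋ < K := by
    rw [Int.floor_lt]
    have := mul_lt_mul_of_pos_left (Int.fract_lt_one ((m : ℝ) * x)) hKR
    push_cast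
    linarith
  rw [← Int.emod_eq_of_lt h3 h4, h2, Int.sub_mul_emod_self_right]

/-- **Main theorem.** -/
theorem result (d : ℕ) (hd : 2 ≤ d) (ε : ℝ) (hε : 0 < ε) :
    Integrable (rootDensity d) ∧ 0 < ∫ t, rootDensity d t ∧
    ∃ c : ℝ, 0 < c ∧ ∃ H0 : ℕ, ∀ H : ℕ, H0 ≤ H →
      (AlgNumbers d H).Finite ∧ (AlgNumbers d H).Nonempty ∧
      (∀ M : ℕ, 1 ≤ M → (M : ℝ) ≤ (H : ℝ) ^ ((d : ℝ) + 1 - ε) → ∀ J : Set ℤ,
        |proportion d H (fun x => ⌊(M : ℝ) * x⌋ ∈ J) -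
          (∫ t in {t : ℝ | ⌊(M : ℝ) * t⌋ ∈ J}, rootDensity d t) / ∫ t, rootDensity d t| ≤
            (H : ℝ) ^ (-c)) ∧
      (∀ m K : ℕ, (H : ℝ) ^ ε ≤ m → 1 ≤ K → (m : ℝ) * K ≤ (H : ℝ) ^ ((d : ℝ) + 1 - ε) →
        ∀ E : Set ℕ, E ⊆ Set.Iio K →
        |proportion d H (fun x => ⌊(K : ℝ) * Int.fract ((m : ℝ) * x)⌋₊ ∈ E) - (E.ncard : ℝ) / K| ≤
          (H : ℝ) ^ (-c)) ∧
      (∀ m K : ℕ, (H : ℝ) ^ ((d : ℝ) + 1 + ε) ≤ K → ∃ E : Set ℕ, E ⊆ Set.Iio K ∧
        (E.ncard : ℝ) / K ≤ (H : ℝ) ^ (-c) ∧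
        ∀ x ∈ AlgNumbers d H, ⌊(K : ℝ) * Int.fract ((m : ℝ) * x)⌋₊ ∈ E) := by
  classical
  obtain ⟨q, rfl⟩ : ∃ q, d = q + 2 := ⟨d - 2, by omega⟩
  have hden : rootDensity (q + 2) = Pool.Agent.W5h30.LL.ph (q + 1) := by
    funext t
    exact dens_eq (q + 1) t
  obtain ⟨c1, hc1, H1, hlaw⟩ := Pool.Agent.W5h30.LL.law q ε hε
  obtain ⟨C, hC, c2, hc2, hdig⟩ := Pool.Agent.W5h30.LL.digit_mass q
  obtain ⟨C3, hC3⟩ : ∃ C3 : ℝ, C3 = 3 ^ (q + 3) * (q + 2) := ⟨_, rfl⟩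
  have hC30 : 0 < C3 := by rw [hC3]; positivity
  obtain ⟨c, hc⟩ : ∃ c : ℝ, c = min (min c1 (ε * c2)) ε / 2 := ⟨_, rfl⟩
  have hmin : 0 < min (min c1 (ε * c2)) ε := lt_min (lt_min hc1 (mul_pos hε hc2)) hε
  have hc0 : 0 < c := by rw [hc]; linarith
  have hca : 2 * c ≤ c1 := by
    have : 2 * c = min (min c1 (ε * c2)) ε := by rw [hc]; ring
    rw [this]
    exact (min_le_left _ _).trans (min_le_left _ _)
  have hcb : 2 * c ≤ ε * c2 := by
    have : 2 * c = min (min c1 (ε * c2)) ε := by rw [hc]; ring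
    rw [this]
    exact (min_le_left _ _).trans (min_le_right _ _)
  have hcc : 2 * c ≤ ε := by
    have : 2 * c = min (min c1 (ε * c2)) ε := by rw [hc]; ring
    rw [this]
    exact min_le_right _ _
  refine ⟨hden ▸ Pool.Agent.W5h30.LL.phi_int q, ?_, c, hc0, ?_⟩
  · rw [hden]
    exact Pool.Agent.W5h30.LL.I0_pos q
  have hev : ∀ᶠ H : ℕ in Filter.atTop, 1 + C + C3 ≤ (H : ℝ) ^ c ∧ H1 ≤ H ∧ 1 ≤ H ∧
      (H : ℝ) ^ ((q : ℝ) + 3 - 1) ≤ ((Pool.Agent.Y933.KG.Alg (q + 2) H).ncard : ℝ) := by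
    filter_upwards [Pool.Agent.W5h30.LL.ev_rpow (1 + C + C3) c hc0, Filter.eventually_ge_atTop H1,
      Filter.eventually_ge_atTop 1, Pool.Agent.Y933.KG.Alg_many q 1 one_pos] with H a b c d
    exact ⟨a, b, c, d⟩
  obtain ⟨H0, hH0⟩ := Filter.eventually_atTop.1 hev
  refine ⟨H0, fun H hH => ?_⟩
  obtain ⟨g1, g2, g3, g4⟩ := hH0 H hH
  have hHR : (1 : ℝ) ≤ H := by exact_mod_cast g3
  have hHpos : (0 : ℝ) < H := by linarith
  have hfin : (AlgNumbers (q + 2) H).Finite := Pool.Agent.Y933.KG.Alg_finite q H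
  obtain ⟨s, hs⟩ : ∃ s : Finset ℝ, s = hfin.toFinset := ⟨_, rfl⟩
  have hmem : ∀ x, x ∈ s ↔ x ∈ Pool.Agent.Y933.KG.Alg (q + 2) H := by
    intro x
    rw [hs, Set.Finite.mem_toFinset]
    exact Iff.rfl
  have hcoe : (s : Set ℝ) = AlgNumbers (q + 2) H := by rw [hs, Set.Finite.coe_toFinset]
  have hprop : ∀ P : ℝ → Prop, proportion (q + 2) H P = (Pool.Agent.W5h30.LL.cn s P : ℝ) / s.card := by
    intro P
    unfold proportion
    have h1 : {x | x ∈ AlgNumbers (q + 2) H ∧ P x} = ((s.filter P : Finset ℝ) : Set ℝ) := by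
      rw [Finset.coe_filter]
      ext x
      rw [Set.mem_ofPred_eq, Set.mem_ofPred_eq, ← hcoe, Finset.mem_coe]
    rw [h1, Set.ncard_coe_finset, ← hcoe, Set.ncard_coe_finset]
    unfold Pool.Agent.W5h30.LL.cn
    congr 3
  have hHc1 : (H : ℝ) ^ (-c1) ≤ (H : ℝ) ^ (-c) := Real.rpow_le_rpow_of_exponent_le hHR (by linarith)
  have hpos : 0 < s.card := by
    have h1 : Pool.Agent.Y933.KG.Alg (q + 2) H = (s : Set ℝ) := by
      ext x
      rw [Finset.mem_coe, hmem]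
    rw [h1, Set.ncard_coe_finset] at g4
    have h2 : (0 : ℝ) < s.card := lt_of_lt_of_le (by positivity) g4
    exact_mod_cast h2
  have hq3 : ((q + 2 : ℕ) : ℝ) + 1 = (q : ℝ) + 3 := by push_cast; ring
  refine ⟨hfin, ?_, ?_, ?_, ?_⟩
  · rw [← hcoe]
    exact Finset.card_pos.1 hpos
  · intro M hM hMH J
    rw [hq3] at hMH
    have h1 := hlaw H g2 M hM hMH J s hmem
    rw [hprop, hden]
    exact h1.2.trans hHc1
  · intro m K hm hK hmK E hE
    have hm1 : (1 : ℝ) ≤ m := (Real.one_le_rpow hHR hε.le).trans hm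
    have hm1' : 1 ≤ m := by exact_mod_cast hm1
    obtain ⟨Ef, hEf⟩ : ∃ Ef : Finset ℕ, Ef = (Finset.range K).filter (fun e => e ∈ E) := ⟨_, rfl⟩
    have hEf' : ∀ e, e ∈ Ef ↔ e ∈ E := by
      intro e
      rw [hEf, Finset.mem_filter, Finset.mem_range]
      exact ⟨fun h => h.2, fun h => ⟨hE h, h⟩⟩
    have hEcoe : E = (Ef : Set ℕ) := by
      ext e
      rw [Finset.mem_coe, hEf']
    have hlt : ∀ e ∈ Ef, e < K := fun e he => hE ((hEf' e).1 he)
    have h1 := hdig m K hm1' hK Ef hlt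
    have hmK' : ((m * K : ℕ) : ℝ) ≤ (H : ℝ) ^ ((q : ℝ) + 3 - ε) := by
      rw [← hq3]
      push_cast
      push_cast at hmK
      exact hmK
    have h2 := (hlaw H g2 (m * K) (Nat.mul_pos hm1' hK) hmK' {u : ℤ | (u % K).toNat ∈ Ef} s hmem).2
    have h3 : Pool.Agent.W5h30.LL.cn s (fun x => ⌊((m * K : ℕ) : ℝ) * x⌋ ∈ {u : ℤ | (u % K).toNat ∈ Ef}) =
        Pool.Agent.W5h30.LL.cn s (fun x => ⌊(K : ℝ) * Int.fract ((m : ℝ) * x)⌋₊ ∈ E) := by
      congr 1
      funext x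
      rw [floor_fract m K hK x, eq_iff_iff, Set.mem_ofPred_eq]
      exact hEf' _
    rw [h3] at h2
    rw [hprop, hEcoe, Set.ncard_coe_finset, ← hEcoe]
    have h4 : C * (m : ℝ) ^ (-c2) ≤ C * (H : ℝ) ^ (-(2 * c)) := by
      refine mul_le_mul_of_nonneg_left ?_ hC
      have h5 : (H : ℝ) ^ (2 * c) ≤ (m : ℝ) ^ c2 := by
        calc (H : ℝ) ^ (2 * c) ≤ (H : ℝ) ^ (ε * c2) := Real.rpow_le_rpow_of_exponent_le hHR hcb
          _ = ((H : ℝ) ^ ε) ^ c2 := Real.rpow_mul hHpos.le _ _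
          _ ≤ (m : ℝ) ^ c2 := Real.rpow_le_rpow (by positivity) hm hc2.le
      rw [Real.rpow_neg (by linarith), Real.rpow_neg hHpos.le]
      exact inv_anti₀ (by positivity) h5
    have h5 : (H : ℝ) ^ (-c1) ≤ (H : ℝ) ^ (-(2 * c)) := Real.rpow_le_rpow_of_exponent_le hHR (by linarith)
    have h6 : (1 + C) * (H : ℝ) ^ (-(2 * c)) ≤ (H : ℝ) ^ (-c) := by
      calc (1 + C) * (H : ℝ) ^ (-(2 * c)) ≤ (H : ℝ) ^ c * (H : ℝ) ^ (-(2 * c)) :=
            mul_le_mul_of_nonneg_right (by linarith) (by positivity)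
        _ = _ := by
            rw [← Real.rpow_add hHpos]
            congr 1
            ring
    rw [abs_le] at h1 h2 ⊢
    constructor <;> linarith [h1.1, h1.2, h2.1, h2.2]
  · intro m K hKH
    have hK1 : (1 : ℝ) ≤ K := (Real.one_le_rpow hHR (by positivity)).trans hKH
    have hK0 : (0 : ℝ) < K := by linarith
    refine ⟨(fun x : ℝ => ⌊(K : ℝ) * Int.fract ((m : ℝ) * x)⌋₊) '' AlgNumbers (q + 2) H, ?_, ?_, ?_⟩
    · rintro _ ⟨x, _, rfl⟩
      rw [Set.mem_Iio, Nat.floor_lt (mul_nonneg hK0.le (Int.fract_nonneg _))]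
      have := mul_lt_mul_of_pos_left (Int.fract_lt_one ((m : ℝ) * x)) hK0
      linarith
    · have h1 : ((fun x : ℝ => ⌊(K : ℝ) * Int.fract ((m : ℝ) * x)⌋₊) '' AlgNumbers (q + 2) H).ncard ≤
          (AlgNumbers (q + 2) H).ncard := Set.ncard_image_le hfin
      have h2 : (AlgNumbers (q + 2) H).ncard ≤ (Pool.Agent.Y933.KG.Om q H).card := by
        rw [← hcoe, Set.ncard_coe_finset, ← Pool.Agent.W5h30.LL.cn_true s]
        exact (Pool.Agent.W5h30.LL.cn_le_NP hmem _).trans (Pool.Agent.W5h30.LL.NP_le q H _)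
      have h3 := Pool.Agent.Y933.KG.card_Om_le q H g3
      rw [← hC3] at h3
      have h4 : (((fun x : ℝ => ⌊(K : ℝ) * Int.fract ((m : ℝ) * x)⌋₊) '' AlgNumbers (q + 2) H).ncard : ℝ) ≤
          C3 * (H : ℝ) ^ (q + 3) := le_trans (by exact_mod_cast h1.trans h2) h3
      rw [div_le_iff₀ hK0]
      refine h4.trans ?_
      rw [hq3] at hKH
      calc C3 * (H : ℝ) ^ (q + 3) ≤ (H : ℝ) ^ c * (H : ℝ) ^ (q + 3) :=
            mul_le_mul_of_nonneg_right (by linarith) (by positivity)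
        _ = (H : ℝ) ^ (c + ((q : ℝ) + 3)) := by
            rw [Real.rpow_add hHpos]
            congr 1
            rw [← Real.rpow_natCast]
            push_cast
            rfl
        _ ≤ (H : ℝ) ^ (-c + ((q : ℝ) + 3 + ε)) := Real.rpow_le_rpow_of_exponent_le hHR (by linarith)
        _ = (H : ℝ) ^ (-c) * (H : ℝ) ^ ((q : ℝ) + 3 + ε) := Real.rpow_add hHpos _ _
        _ ≤ _ := mul_le_mul_of_nonneg_left hKH (by positivity)
    · intro x hx
      exact ⟨x, hx, rfl⟩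

end Pool.Agent.Results.MP_f2f914_nt.SharpCutoff
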